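import Pool.Agent.PPB.Main

/-!
# The Property B number is at least `10⁻⁴ 2ⁿ √n / ln ln n`
-/

set_option autoImplicit false

namespace Pool.Agent.Results.MP_5e7c84_co.LowerBound

/-- Let `m(n)` be the fewest edges in a finite `n`-uniform hypergraph whose every 2-colouring leaves
an edge monochromatic. Then `m(n) ≥ 10⁻⁴ 2ⁿ √n / ln ln n` for all large `n`. -/
theorem result :
    ∀ m : ℕ → ℕ,
      (∀ n : ℕ, m n = sInf {k : ℕ | ∃ N : ℕ, ∃ H : Finset (Finset (Fin N)),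
          H.card = k ∧ (∀ e ∈ H, e.card = n) ∧
          ∀ f : Fin N → Bool, ∃ e ∈ H, ∃ b : Bool, ∀ x ∈ e, f x = b}) →
      ∃ N₀ : ℕ, ∀ n : ℕ, N₀ ≤ n →
        1 / 10000 * (2 : ℝ) ^ n * Real.sqrt n / Real.log (Real.log n) ≤ (m n : ℝ) :=
  PPB.t_mns

end Pool.Agent.Results.MP_5e7c84_co.LowerBound
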